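import Pool.Agent.Q45.ML.OF

/-!
# Smoothed sums of Frobenius elements in a group ring

Places `v` with norms `q v` and elements `φ v` of a finite abelian group `A` (written additively); `coef` is the
coefficient at `a` of the group ring element
`∑_{v,k} (1 / (k q v^{k s₀})) e^{iγ k log q v/T}/Γ(1 + k log q v/T) · [k φ v]`.
-/

set_option autoImplicit false

namespace Pool.Agent.Q285.EQ

open Filter Topology Asymptotics Pool.Agent.Q45.ML

section

variable {P : Type} {A : Type} [AddCommGroup A]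

/-- the scalar `(1 / (k q v^{k s₀})) e^{iγ k log q v/T}/Γ(1 + k log q v/T)` at `x = (v, k - 1)` -/
noncomputable def ker (q : P → ℝ) (s₀ γ T : ℝ) (x : P × ℕ) : ℂ :=
  1 / ((x.2 + 1) * (q x.1 : ℂ) ^ (((x.2 + 1) * s₀ : ℝ) : ℂ)) *
    (Complex.exp ((γ * ((x.2 + 1) * Real.log (q x.1) / T) : ℝ) * Complex.I) /
      (Real.Gamma (1 + (x.2 + 1) * Real.log (q x.1) / T) : ℂ))

/-- the coefficient at `a` -/
noncomputable def coef (q : P → ℝ) (φ : P → A) (s₀ γ T : ℝ) (a : A) : ℂ :=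
  ∑' x : {x : P × ℕ // (x.2 + 1) • φ x.1 = a}, ker q s₀ γ T x

theorem sterm_char (q : P → ℝ) (φ : P → A) (χ : AddChar A ℂ) (s₀ γ T : ℝ) (x : P × ℕ) :
    sterm q (fun v (_ : Fin 1) => χ (φ v)) s₀ γ T x = χ ((x.2 + 1) • φ x.1) * ker q s₀ γ T x := by
  unfold sterm ker
  simp only [Finset.univ_unique, Finset.sum_const, Finset.card_singleton, one_smul,
    AddChar.map_nsmul_eq_pow]
  ring

theorem eul_char [Finite A] {q : P → ℝ} (φ : P → A) (h2 : ∀ v, 2 ≤ q v)
    (hs : ∀ σ : ℝ, 1 < σ → Summable fun v => q v ^ (-σ)) (χ : AddChar A ℂ) :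
    Eul 1 q (fun v (_ : Fin 1) => χ (φ v)) 0 1 :=
  ⟨zero_le_one, h2, hs, fun v _ => by rw [AddChar.norm_apply, Real.rpow_zero]⟩

theorem ker_summable [Finite A] {q : P → ℝ} (φ : P → A) (h2 : ∀ v, 2 ≤ q v)
    (hs : ∀ σ : ℝ, 1 < σ → Summable fun v => q v ^ (-σ)) (s₀ γ : ℝ) {T : ℝ} (hT : 0 < T) :
    Summable fun x : P × ℕ => ‖ker q s₀ γ T x‖ := by
  have h := (eul_char φ h2 hs (1 : AddChar A ℂ)).sterm_summable s₀ γ hT
  refine h.congr fun x => ?_
  rw [sterm_char]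
  simp

/-- the value of the group ring element at a character -/
theorem sum_coef [Fintype A] {q : P → ℝ} (φ : P → A) (h2 : ∀ v, 2 ≤ q v)
    (hs : ∀ σ : ℝ, 1 < σ → Summable fun v => q v ^ (-σ)) (s₀ γ : ℝ) {T : ℝ} (hT : 0 < T)
    (χ : AddChar A ℂ) :
    ∑ a, coef q φ s₀ γ T a * χ a = smooth q (fun v (_ : Fin 1) => χ (φ v)) s₀ γ T := by
  have h := ((eul_char φ h2 hs χ).sterm_summable s₀ γ hT).of_norm
  have h' : Summable fun y : Σ a : A, {x : P × ℕ // (x.2 + 1) • φ x.1 = a} =>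
      sterm q (fun v (_ : Fin 1) => χ (φ v)) s₀ γ T y.2 :=
    (Equiv.summable_iff (Equiv.sigmaFiberEquiv fun x : P × ℕ => (x.2 + 1) • φ x.1)).2 h
  unfold smooth
  rw [← (Equiv.sigmaFiberEquiv fun x : P × ℕ => (x.2 + 1) • φ x.1).tsum_eq]
  have h3 := h'.tsum_sigma
  refine Eq.trans ?_ h3.symm
  rw [tsum_fintype]
  refine Finset.sum_congr rfl fun g _ => ?_
  unfold coef
  rw [← tsum_mul_right]
  refine tsum_congr fun x => ?_
  rw [sterm_char, x.2, mul_comm]

end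

/-! ### Taylor coefficients -/

section

variable {S : ℝ → ℂ} {γ : ℝ} {m : ℤ} {l : ℂ} {F : ℂ → ℂ} {s₀ : ℝ}

/-- order and leading coefficient compared with the limit of `F(s)/(s - s₀)^r` -/
theorem limit_cases (hF : MeromorphicAt F s₀) (hm : meromorphicOrderAt F s₀ = m)
    {r : ℤ} {c : ℂ} (hc : Tendsto (fun s : ℂ => F s * (s - s₀) ^ (-r)) (𝓝[≠] (s₀ : ℂ)) (𝓝 c)) :
    (m = r ∧ c = meromorphicTrailingCoeffAt F s₀) ∨ (r < m ∧ c = 0) := by
  have h1 := hF.tendsto_nhds_meromorphicTrailingCoeffAt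
  rw [hm] at h1
  simp only [WithTop.untop₀_coe] at h1
  have hB : meromorphicTrailingCoeffAt F s₀ ≠ 0 :=
    hF.meromorphicTrailingCoeffAt_ne_zero (by rw [hm]; exact WithTop.coe_ne_top)
  set B := meromorphicTrailingCoeffAt F s₀
  have hsub : Tendsto (fun s : ℂ => s - s₀) (𝓝[≠] (s₀ : ℂ)) (𝓝[≠] 0) := by
    refine tendsto_nhdsWithin_iff.2 ⟨?_, ?_⟩
    · have : Tendsto (fun s : ℂ => s - s₀) (𝓝 (s₀ : ℂ)) (𝓝 ((s₀ : ℂ) - s₀)) :=
        (continuous_id.sub continuous_const).tendsto _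
      rw [sub_self] at this
      exact this.mono_left nhdsWithin_le_nhds
    · filter_upwards [self_mem_nhdsWithin] with s hs
      exact sub_ne_zero.2 hs
  rcases lt_trichotomy m r with h | h | h
  · exfalso
    -- `F (s-s₀)^{-m} = F (s-s₀)^{-r} (s-s₀)^{r-m} → 0`
    have h2 : Tendsto (fun s : ℂ => F s * (s - s₀) ^ (-r) * (s - s₀) ^ (r - m)) (𝓝[≠] (s₀ : ℂ))
        (𝓝 (c * 0)) := by
      refine hc.mul ?_
      obtain ⟨k, hk⟩ : ∃ k : ℕ, r - m = (k + 1 : ℕ) := ⟨(r - m - 1).toNat, by omega⟩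
      have h3 : Tendsto (fun z : ℂ => z ^ (k + 1)) (𝓝[≠] (0 : ℂ)) (𝓝 0) := by
        have : Tendsto (fun z : ℂ => z ^ (k + 1)) (𝓝 (0 : ℂ)) (𝓝 (0 ^ (k + 1))) :=
          (continuous_pow _).tendsto _
        rw [zero_pow (by omega)] at this
        exact this.mono_left nhdsWithin_le_nhds
      have h4 := h3.comp hsub
      refine h4.congr fun s => ?_
      simp only [Function.comp]
      rw [hk, zpow_natCast]
    rw [mul_zero] at h2
    have h3 : Tendsto (fun s : ℂ => F s * (s - s₀) ^ (-r) * (s - s₀) ^ (r - m)) (𝓝[≠] (s₀ : ℂ))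
        (𝓝 B) := by
      refine h1.congr' ?_
      filter_upwards [self_mem_nhdsWithin] with s hs
      have hs' : s - (s₀ : ℂ) ≠ 0 := sub_ne_zero.2 hs
      simp only [Pi.smul_apply', Pi.pow_apply, smul_eq_mul]
      rw [mul_assoc, ← zpow_add₀ hs', mul_comm]
      congr 2
      ring
    exact hB (tendsto_nhds_unique h3 h2)
  · left
    subst h
    refine ⟨rfl, tendsto_nhds_unique hc (h1.congr fun s => ?_)⟩
    simp only [Pi.smul_apply', Pi.pow_apply, smul_eq_mul]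
    rw [mul_comm]
  · right
    refine ⟨h, ?_⟩
    have h2 : Tendsto (fun s : ℂ => F s * (s - s₀) ^ (-m) * (s - s₀) ^ (m - r)) (𝓝[≠] (s₀ : ℂ))
        (𝓝 (B * 0)) := by
      refine Tendsto.mul (h1.congr fun s => ?_) ?_
      · simp only [Pi.smul_apply', Pi.pow_apply, smul_eq_mul]
        rw [mul_comm]
      obtain ⟨k, hk⟩ : ∃ k : ℕ, m - r = (k + 1 : ℕ) := ⟨(m - r - 1).toNat, by omega⟩
      have h3 : Tendsto (fun z : ℂ => z ^ (k + 1)) (𝓝[≠] (0 : ℂ)) (𝓝 0) := by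
        have : Tendsto (fun z : ℂ => z ^ (k + 1)) (𝓝 (0 : ℂ)) (𝓝 (0 ^ (k + 1))) :=
          (continuous_pow _).tendsto _
        rw [zero_pow (by omega)] at this
        exact this.mono_left nhdsWithin_le_nhds
      have h4 := h3.comp hsub
      refine h4.congr fun s => ?_
      simp only [Function.comp]
      rw [hk, zpow_natCast]
    rw [mul_zero] at h2
    refine tendsto_nhds_unique hc (h2.congr' ?_)
    filter_upwards [self_mem_nhdsWithin] with s hs
    have hs' : s - (s₀ : ℂ) ≠ 0 := sub_ne_zero.2 hs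
    rw [mul_assoc, ← zpow_add₀ hs']
    congr 2
    ring

/-- the limit of `F(s)/(s - s₀)^r` as a limit of the smoothed sums, with rate -/
theorem taylor_rate (hF : MeromorphicAt F s₀) (hm : meromorphicOrderAt F s₀ = m)
    (hl : Complex.exp l = meromorphicTrailingCoeffAt F s₀)
    (hO : (fun T : ℝ => S T - (l - m * (Real.log T - Pool.Agent.W187.UR.Lam γ))) =O[atTop]
      (fun T : ℝ => 1 / T))
    {r : ℤ} {c : ℂ} (hc : Tendsto (fun s : ℂ => F s * (s - s₀) ^ (-r)) (𝓝[≠] (s₀ : ℂ)) (𝓝 c)) :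
    (fun T : ℝ => Complex.exp (S T) * (T : ℂ) ^ r - c * Complex.exp (r * Pool.Agent.W187.UR.Lam γ))
      =O[atTop] (fun T : ℝ => 1 / T) := by
  rcases limit_cases hF hm hc with ⟨h, h'⟩ | ⟨h, h'⟩
  · subst h
    rw [h', ← hl]
    exact prod_rate hO
  · rw [h']
    simp only [zero_mul, sub_zero]
    have h2 : (fun T : ℝ => Complex.exp (S T) * (T : ℂ) ^ m) =O[atTop] fun _ => (1 : ℝ) :=
      (tendsto_prod hO).isBigO_one ℝ
    have h3 : (fun T : ℝ => (T : ℂ) ^ (r - m)) =O[atTop] fun T : ℝ => 1 / T := by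
      refine IsBigO.of_bound 1 ?_
      filter_upwards [eventually_ge_atTop 1] with T hT
      have hT0 : 0 < T := by linarith
      rw [norm_zpow, Complex.norm_real, Real.norm_eq_abs, abs_of_pos hT0, one_mul, Real.norm_eq_abs,
        abs_of_pos (by positivity : 0 < 1 / T), one_div, ← zpow_neg_one]
      exact zpow_le_zpow_right₀ hT (by omega)
    have h4 := h2.mul h3
    refine h4.congr' ?_ ?_
    · filter_upwards [eventually_gt_atTop 0] with T hT
      have hTc : (T : ℂ) ≠ 0 := by exact_mod_cast hT.ne'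
      rw [mul_assoc, ← zpow_add₀ hTc]
      congr 2
      ring
    · filter_upwards with T
      rw [one_mul]

end

end Pool.Agent.Q285.EQ
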